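import Mathlib

set_option autoImplicit false

namespace Pool.Agent.Results.MP_74392e_co.Yes

open SimpleGraph

/-- every vertex has degree k and every local graph is t-regular -/
def LocReg {V : Type} (G : SimpleGraph V) (k t : ℕ) : Prop :=
  (∀ v, (G.neighborSet v).encard = k) ∧
    ∀ v w, G.Adj v w → {x | G.Adj v x ∧ G.Adj w x}.encard = t

lemma key {V : Type} (G : SimpleGraph V) (h : LocReg G 6 3) {a b c d : V} (ab : G.Adj a b)
    (bc : G.Adj b c) (cd : G.Adj c d) :
    a = d ∨ G.Adj a d ∨ ∃ x, G.Adj a x ∧ G.Adj x d := by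
  classical
  by_contra hc
  push Not at hc
  obtain ⟨h1, h2, h3⟩ := hc
  have fin : ∀ v, (G.neighborSet v).Finite := fun v => Set.finite_of_encard_eq_coe (h.1 v)
  let N : V → Finset V := fun v => (fin v).toFinset
  have hN : ∀ v x, x ∈ N v ↔ G.Adj v x := fun v x => by simp [N]
  have c1 : ∀ v, (N v).card = 6 := fun v => by
    have := h.1 v
    rw [← (fin v).coe_toFinset, Set.encard_coe_eq_coe_finsetCard] at this
    exact_mod_cast this
  have c2 : ∀ v w, G.Adj v w → (N v ∩ N w).card = 3 := fun v w hvw => by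
    have := h.2 v w hvw
    rw [show {x | G.Adj v x ∧ G.Adj w x} = ↑(N v ∩ N w) by ext; simp [hN],
      Set.encard_coe_eq_coe_finsetCard] at this
    exact_mod_cast this
  have side : ∀ {p q r : V}, G.Adj p q → G.Adj q r → p ≠ r → ¬ G.Adj p r →
      2 ≤ (N p ∩ N q ∩ N r).card := by
    intro p q r pq qr hne hna
    have s1 : (N p ∩ N q) ∪ (N q ∩ N r) ⊆ ((N q).erase p).erase r := by
      intro x hx
      simp only [Finset.mem_union, Finset.mem_inter, Finset.mem_erase, hN] at hx ⊢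
      rcases hx with ⟨a1, a2⟩ | ⟨a1, a2⟩
      · exact ⟨fun e => hna (e ▸ a1), a1.ne', a2⟩
      · exact ⟨a2.ne', fun e => hna (e ▸ a2).symm, a1⟩
    have s2 := Finset.card_le_card s1
    rw [Finset.card_erase_of_mem (by simp [hN, qr, hne.symm]),
      Finset.card_erase_of_mem (by simp [hN, pq.symm]), c1] at s2
    have s3 := Finset.card_union_add_card_inter (N p ∩ N q) (N q ∩ N r)
    rw [c2 _ _ pq, c2 _ _ qr] at s3
    have s4 : N p ∩ N q ∩ (N q ∩ N r) = N p ∩ N q ∩ N r := by ext; simp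
    rw [s4] at s3
    omega
  have t1 := side ab bc (fun e => h2 (e ▸ cd)) fun e => h3 c e cd
  have t2 := side cd.symm bc.symm (fun e => h2 (e ▸ ab)) fun e => h3 b ab e.symm
  have s1 : (N a ∩ N b ∩ N c) ∪ (N d ∩ N c ∩ N b) ⊆ N b ∩ N c := by
    intro x hx
    simp only [Finset.mem_union, Finset.mem_inter] at hx ⊢
    tauto
  have s2 := Finset.card_le_card s1
  rw [Finset.card_union_of_disjoint, c2 _ _ bc] at s2
  · omega
  · rw [Finset.disjoint_left]
    intro x hx hy
    simp only [Finset.mem_inter, hN] at hx hy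
    exact h3 x hx.1.1 hy.1.1.symm

lemma fin_of {V : Type} (G : SimpleGraph V) (hc : G.Connected) (h : LocReg G 6 3) : Finite V := by
  obtain ⟨a⟩ := hc.nonempty
  have fin : ∀ v, (G.neighborSet v).Finite := fun v => Set.finite_of_encard_eq_coe (h.1 v)
  have near : ∀ {d a : V} (_ : G.Walk d a), a = d ∨ G.Adj a d ∨ ∃ x, G.Adj a x ∧ G.Adj x d := by
    intro d a p
    induction p with
    | nil => exact Or.inl rfl
    | cons h' _ ih =>
      rcases ih with rfl | h1 | ⟨x, h1, h2⟩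
      exacts [Or.inr (Or.inl h'.symm), Or.inr (Or.inr ⟨_, h1, h'.symm⟩), key G h h1 h2 h'.symm]
  refine Set.finite_univ_iff.1 (((Set.finite_singleton a).union ((fin a).union
    ((fin a).biUnion fun x _ => fin x))).subset fun d _ => ?_)
  obtain ⟨p⟩ := hc d a
  rcases near p with rfl | h1 | ⟨x, h1, h2⟩
  exacts [Or.inl rfl, Or.inr (Or.inl h1), Or.inr (Or.inr (Set.mem_biUnion h1 h2))]

lemma of_fin {n : ℕ} (G : SimpleGraph (Fin n)) [DecidableRel G.Adj]
    (h1 : ∀ v, (Finset.univ.filter fun x => G.Adj v x).card = 6)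
    (h2 : ∀ v w, G.Adj v w → (Finset.univ.filter fun x => G.Adj v x ∧ G.Adj w x).card = 3) :
    LocReg G 6 3 := by
  refine ⟨fun v => ?_, fun v w h => ?_⟩
  · rw [← h1 v, ← Set.encard_coe_eq_coe_finsetCard]; congr 1; ext; simp
  · rw [← h2 v w h, ← Set.encard_coe_eq_coe_finsetCard]; congr 1; ext; simp

lemma conn {n : ℕ} (G : SimpleGraph (Fin (n + 1)))
    (h : ∀ d, 0 = d ∨ G.Adj 0 d ∨ ∃ x, G.Adj 0 x ∧ G.Adj x d) : G.Connected := by
  refine (connected_iff_exists_forall_reachable G).2 ⟨0, fun d => ?_⟩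
  rcases h d with rfl | h1 | ⟨x, h1, h2⟩
  exacts [.rfl, h1.reachable, h1.reachable.trans h2.reachable]

def G1 : SimpleGraph (Fin 9) where
  Adj a b := a.val % 3 ≠ b.val % 3
  symm := ⟨fun _ _ h => h.symm⟩
  loopless := ⟨fun _ h => h rfl⟩

instance : DecidableRel G1.Adj := fun a b => inferInstanceAs (Decidable (a.val % 3 ≠ b.val % 3))

def mk : Fin 10 → ℕ := ![3, 5, 9, 17, 6, 10, 18, 12, 20, 24]

def G2 : SimpleGraph (Fin 10) where
  Adj a b := a ≠ b ∧ mk a &&& mk b ≠ 0
  symm := ⟨fun _ _ h => ⟨h.1.symm, by rw [Nat.and_comm]; exact h.2⟩⟩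
  loopless := ⟨fun _ h => h.1 rfl⟩

instance : DecidableRel G2.Adj := fun a b =>
  inferInstanceAs (Decidable (a ≠ b ∧ mk a &&& mk b ≠ 0))

theorem result : ∃ k t : ℕ, 1 ≤ k ∧
    (∃ (V W : Type) (G : SimpleGraph V) (H : SimpleGraph W), G.Connected ∧ H.Connected ∧
      LocReg G k t ∧ LocReg H k t ∧ IsEmpty (G ≃g H)) ∧
    ∀ (V : Type) (G : SimpleGraph V), G.Connected → LocReg G k t → Finite V := by
  refine ⟨6, 3, by omega, ⟨_, _, G1, G2, conn _ (by decide), conn _ (by decide),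
    of_fin _ (by decide) (by decide), of_fin _ (by decide) (by decide +kernel), ⟨fun e => ?_⟩⟩,
    fun V G => fin_of G⟩
  simpa using Fintype.card_congr e.toEquiv

end Pool.Agent.Results.MP_74392e_co.Yes
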